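import Mathlib

open Set Metric
open scoped ENNReal

namespace Pool.Agent.Results.MP_25d2c4_an.Asq

/-- almost square spaces -/
def ASQ (X : Type) [NormedAddCommGroup X] : Prop :=
  ∀ (k : ℕ) (x : Fin k → X), (∀ i, ‖x i‖ = 1) → ∀ ε > 0, ∃ y : X, ‖y‖ = 1 ∧ ∀ i, ‖x i + y‖ ≤ 1 + ε

variable (𝕜 X : Type) [RCLike 𝕜] [NormedAddCommGroup X] [NormedSpace 𝕜 X]

/-- bounded scalar functions on the closed unit ball of the dual, with the supremum norm -/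
abbrev Fn : Type := lp (fun _ : {φ : X →L[𝕜] 𝕜 // ‖φ‖ ≤ 1} => 𝕜) ∞

/-- The completed symmetric injective tensor product of order `N`, realised as the closed linear span
of the functions `φ ↦ φ(x)^N` (the elementary tensors `x ⊗ ⋯ ⊗ x`) in `Fn 𝕜 X`. -/
noncomputable def SymInj (N : ℕ) : Submodule 𝕜 (Fn 𝕜 X) :=
  (Submodule.span 𝕜 {u : Fn 𝕜 X | ∃ x : X, ∀ φ, u φ = φ.1 x ^ N}).topologicalClosure

variable {𝕜 X}

lemma strong (h : ASQ X) (s : Finset X) {δ : ℝ} (hδ : 0 < δ) : ∃ y : X, ‖y‖ = 1 ∧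
    ∀ φ : X →L[𝕜] 𝕜, ‖φ‖ ≤ 1 → ∃ (a : ℝ) (ψ : X →L[𝕜] 𝕜), 0 ≤ a ∧ a ≤ 1 ∧ ‖ψ‖ ≤ 1 ∧
      a + ‖φ y‖ ≤ 1 + δ ∧ ∀ x ∈ s, φ x = a * ψ x := by
  let E := Submodule.span 𝕜 (s : Set X)
  haveI : ProperSpace E := FiniteDimensional.proper_rclike 𝕜 E
  obtain ⟨t, ts, tf, ht⟩ := (isCompact_sphere (0 : E) 1).finite_cover_balls (half_pos hδ)
  obtain ⟨k, x, hx⟩ := tf.fin_param
  obtain ⟨y, y1, hy⟩ := h k (fun i => x i) (fun i => mem_sphere_zero_iff_norm.1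
    (ts (hx.2 ▸ mem_range_self i))) _ (half_pos hδ)
  have k1 : ∀ e : E, ‖e‖ = 1 → ‖e.1 + y‖ ≤ 1 + δ := fun e he => by
    obtain ⟨z, hz, d⟩ := mem_iUnion₂.1 (ht (mem_sphere_zero_iff_norm.2 he))
    obtain ⟨i, rfl⟩ : z ∈ range x := hx.2 ▸ hz
    have d : ‖e.1 - (x i).1‖ < δ / 2 := mem_ball_iff_norm.1 d
    have := norm_add_le (e.1 - (x i).1) ((x i).1 + y)
    rw [← add_assoc, sub_add_cancel] at this
    linarith [hy i]
  refine ⟨y, y1, fun φ hφ => ?_⟩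
  have b : ‖φ y‖ ≤ 1 := by simpa using φ.le_of_opNorm_le_of_le hφ y1.le
  obtain ⟨g, g1, g2⟩ := exists_extension_norm_eq E (φ.comp E.subtypeL)
  have g3 : ∀ x ∈ s, φ x = g x := fun x hx => (g1 ⟨x, Submodule.subset_span hx⟩).symm
  refine ⟨‖g‖, ((‖g‖ : 𝕜)⁻¹) • g, norm_nonneg _, g2.trans_le
    (ContinuousLinearMap.opNorm_le_bound _ zero_le_one fun e => φ.le_of_opNorm_le hφ e.1), ?_,
    ?_, fun x hx => ?_⟩
  · rw [norm_smul, norm_inv, RCLike.norm_ofReal, abs_norm]; exact inv_mul_le_one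
  · rw [← le_sub_iff_add_le, g2]
    refine ContinuousLinearMap.opNorm_le_bound _ (by linarith) fun e => ?_
    rcases eq_or_ne e 0 with rfl | e0
    · simp
    have p := norm_pos_iff.2 e0
    obtain ⟨c, c1, c2⟩ := RCLike.exists_norm_eq_mul_self (φ e.1)
    obtain ⟨d, d1, d2⟩ := RCLike.exists_norm_mul_eq_self (φ y)
    have h1 := φ.le_of_opNorm_le_of_le hφ (k1 ((d * c) • ((‖e‖ : 𝕜)⁻¹ • e)) (by
      rw [norm_smul, norm_mul, c1, d1, norm_smul_inv_norm e0]; norm_num))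
    have h2 : φ ((((d * c) • ((‖e‖ : 𝕜)⁻¹ • e) : E) : X) + y) =
        d * ((‖φ e.1‖ / ‖e‖ + ‖φ y‖ : ℝ) : 𝕜) := by
      rw [map_add, Submodule.coe_smul, Submodule.coe_smul, map_smul, map_smul]
      rw [RCLike.ofReal_add, RCLike.ofReal_div, mul_add, d2, c2, smul_eq_mul, smul_eq_mul]
      ring
    rw [h2, norm_mul, d1, RCLike.norm_ofReal, abs_of_nonneg (by positivity)] at h1
    rw [← div_le_iff₀ p]
    show ‖φ e.1‖ / _ ≤ _
    linarith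
  · rcases eq_or_ne g 0 with rfl | g0
    · simp [g3 x hx]
    · rw [g3 x hx, ContinuousLinearMap.smul_apply, smul_eq_mul, mul_inv_cancel_left₀]
      exact RCLike.ofReal_ne_zero.2 (norm_ne_zero_iff.2 g0)

/-- If a real or complex Banach space is almost square, then so is its completed symmetric injective
tensor product of every order `N ≥ 1`. -/
theorem result (𝕜 X : Type) [RCLike 𝕜] [NormedAddCommGroup X] [NormedSpace 𝕜 X] [CompleteSpace X]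
    (h : ASQ X) (N : ℕ) (hN : 1 ≤ N) : ASQ (SymInj 𝕜 X N) := by
  classical
  intro k u hu ε hε
  obtain ⟨δ, δ0, δ1, δ2⟩ : ∃ δ, 0 < δ ∧ δ ≤ 1 ∧ δ ≤ ε / 4 :=
    ⟨min 1 (ε / 4), by positivity, min_le_left _ _, min_le_right _ _⟩
  have Q : ∀ v ∈ Submodule.span 𝕜 {u : Fn 𝕜 X | ∃ x : X, ∀ φ, u φ = φ.1 x ^ N}, ∃ s : Finset X,
      ∀ φ ψ (c : 𝕜), (∀ x ∈ s, φ.1 x = c * ψ.1 x) → v φ = c ^ N * v ψ := fun v hv => by
    induction hv using Submodule.span_induction with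
    | mem v hv =>
      obtain ⟨x, hx⟩ := hv
      exact ⟨{x}, fun φ ψ c e => by rw [hx, hx, e x (Finset.mem_singleton_self x), mul_pow]⟩
    | zero => exact ⟨∅, by simp⟩
    | add v w _ _ h1 h2 =>
      obtain ⟨s, hs⟩ := h1
      obtain ⟨t, ht⟩ := h2
      exact ⟨s ∪ t, fun φ ψ c e => (congrArg₂ (· + ·)
        (hs φ ψ c fun x hx => e x (Finset.mem_union_left _ hx))
        (ht φ ψ c fun x hx => e x (Finset.mem_union_right _ hx))).trans (mul_add _ _ _).symm⟩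
    | smul a v _ h1 =>
      obtain ⟨s, hs⟩ := h1
      exact ⟨s, fun φ ψ c e => (congrArg (a * ·) (hs φ ψ c e)).trans (mul_left_comm _ _ _)⟩
  choose v v1 v2 using fun i => Metric.mem_closure_iff.1 (u i).2 δ δ0
  choose s hs using fun i => Q _ (v1 i)
  obtain ⟨y, y1, hy⟩ := strong (𝕜 := 𝕜) h (Finset.univ.biUnion s) δ0
  have b : ∀ φ : {φ : X →L[𝕜] 𝕜 // ‖φ‖ ≤ 1}, ‖φ.1 y‖ ≤ 1 := fun φ => by
    simpa using φ.1.le_of_opNorm_le_of_le φ.2 y1.le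
  have b' : ∀ φ : {φ : X →L[𝕜] 𝕜 // ‖φ‖ ≤ 1}, ‖φ.1 y ^ N‖ ≤ ‖φ.1 y‖ := fun φ => by
    rw [norm_pow]; exact pow_le_of_le_one (norm_nonneg _) (b φ) (by omega)
  let w : Fn 𝕜 X := ⟨fun φ => φ.1 y ^ N, memℓp_infty ⟨1, by
    rintro _ ⟨φ, rfl⟩; exact (b' φ).trans (b φ)⟩⟩
  refine ⟨⟨w, Submodule.le_topologicalClosure _ (Submodule.subset_span ⟨y, fun _ => rfl⟩)⟩,
    le_antisymm (lp.norm_le_of_forall_le zero_le_one fun φ => (b' φ).trans (b φ)) ?_, fun i => ?_⟩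
  · obtain ⟨g, g1, g2⟩ := exists_dual_vector'' 𝕜 y
    refine le_trans (le_of_eq ?_) (lp.norm_apply_le_norm ENNReal.top_ne_zero w ⟨g, g1⟩)
    show _ = ‖g y ^ N‖
    simp [g2, y1]
  have d : ‖(u i).1 - v i‖ < δ := (dist_eq_norm _ _).symm.trans_lt (v2 i)
  have n : ‖v i‖ ≤ 1 + δ := by
    have := norm_sub_norm_le (v i) (u i).1
    have h2 : ‖(u i).1‖ = 1 := hu i
    rw [norm_sub_rev] at this
    linarith
  have m : ‖v i + w‖ ≤ (1 + δ) * (1 + δ) := lp.norm_le_of_forall_le (by positivity) fun φ => by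
    obtain ⟨a, ψ, a0, a1, ψ1, a2, a3⟩ := hy φ.1 φ.2
    have e := hs i φ ⟨ψ, ψ1⟩ a fun x hx =>
      a3 x (Finset.mem_biUnion.2 ⟨i, Finset.mem_univ i, hx⟩)
    have h1 : ‖v i φ‖ ≤ a * (1 + δ) := by
      rw [e, norm_mul, norm_pow, RCLike.norm_ofReal, abs_of_nonneg a0]
      exact mul_le_mul (pow_le_of_le_one a0 a1 (by omega))
        ((lp.norm_apply_le_norm ENNReal.top_ne_zero _ _).trans n) (norm_nonneg _) a0
    refine (norm_add_le (v i φ) (φ.1 y ^ N)).trans ?_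
    nlinarith [b' φ, norm_nonneg (φ.1 y)]
  have := norm_add_le ((u i).1 - v i) (v i + w)
  rw [← add_assoc, sub_add_cancel] at this
  show ‖(u i).1 + w‖ ≤ _
  nlinarith

end Pool.Agent.Results.MP_25d2c4_an.Asq
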